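import Pool.Agent.MTO.Stmts

/-!
Squad MTO, row NUE: the numerical inequality of SPE.
-/

set_option autoImplicit false

open scoped BigOperators

namespace Pool.Agent.MTO.H83

theorem num1 (a b X Y S κ : ℕ) (h1 : 1 ≤ a) (h2 : 1 ≤ b) (h3 : S ≤ X * Y) (h4 : a + b ≤ κ) :
    (a + X) + (b + Y) + (a * b + S) ≤ (a + X) * (b + Y) + κ := by
  have h5 : 1 * Y ≤ a * Y := Nat.mul_le_mul h1 le_rfl
  have h6 : X * 1 ≤ X * b := Nat.mul_le_mul le_rfl h2
  nlinarith

theorem num2 (X Y κ : ℕ) (h1 : 1 ≤ X) (h2 : 1 ≤ Y) (h3 : 1 ≤ κ) : X + Y + 0 ≤ X * Y + κ := by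
  obtain ⟨a, rfl⟩ : ∃ a, X = a + 1 := ⟨X - 1, by omega⟩
  obtain ⟨b, rfl⟩ : ∃ b, Y = b + 1 := ⟨Y - 1, by omega⟩
  have h7 : (a + 1) * (b + 1) = a * b + a + b + 1 := by ring
  rw [h7]
  have : 0 ≤ a * b := Nat.zero_le _
  omega

theorem nue0 (P : Type) [Fintype P] (x y : P → ℕ) (κ : ℕ) (hk : ∀ p, x p + y p ≤ κ)
    (hx : 1 ≤ ∑ p, x p) (hy : 1 ≤ ∑ p, y p) :
    ∑ p, x p + ∑ p, y p + ∑ p, x p * y p ≤ (∑ p, x p) * ∑ p, y p + κ := by
  classical
  by_cases h : ∃ p, 1 ≤ x p ∧ 1 ≤ y p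
  · obtain ⟨p, h1, h2⟩ := h
    have e1 := (Finset.add_sum_erase Finset.univ x (Finset.mem_univ p)).symm
    have e2 := (Finset.add_sum_erase Finset.univ y (Finset.mem_univ p)).symm
    have e3 := (Finset.add_sum_erase Finset.univ (fun q => x q * y q) (Finset.mem_univ p)).symm
    have h3 : ∑ q ∈ Finset.univ.erase p, x q * y q ≤
        (∑ q ∈ Finset.univ.erase p, x q) * ∑ q ∈ Finset.univ.erase p, y q := by
      rw [Finset.sum_mul]
      refine Finset.sum_le_sum fun q hq => Nat.mul_le_mul le_rfl ?_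
      exact Finset.single_le_sum (f := y) (fun _ _ => Nat.zero_le _) hq
    have h4 := hk p
    rw [e1, e2, e3]
    exact num1 _ _ _ _ _ _ h1 h2 h3 h4
  · push Not at h
    have h0 : ∑ p, x p * y p = 0 := by
      refine Finset.sum_eq_zero fun p _ => ?_
      rcases Nat.eq_zero_or_pos (x p) with h1 | h1
      · rw [h1, zero_mul]
      · have := h p h1
        have h2 : y p = 0 := by omega
        rw [h2, mul_zero]
    have hk1 : 1 ≤ κ := by
      by_contra hcon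
      have : ∑ p, x p = 0 := Finset.sum_eq_zero fun p _ => by
        have := hk p
        omega
      omega
    rw [h0]
    exact num2 _ _ _ hx hy hk1

theorem nue : NueStmt :=
  fun P _ x y κ hk hx hy => nue0 P x y κ hk hx hy

end Pool.Agent.MTO.H83
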